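import Pool.Agent.Helper13.R6.SheetA

/-! Row RIN of `Pool.Agent.Helper13.R6.SheetA`: inequalities for a reduced basis. -/

set_option autoImplicit false

namespace Pool.Helper13.R6

theorem rin_le (d : Fin 4 → ℝ) (v : V4) (i : Fin 4) : d i * |(v i : ℝ)| ≤ nv d v :=
  Finset.le_sup' (fun i => d i * |(v i : ℝ)|) (Finset.mem_univ i)

theorem rin_nv_le {d : Fin 4 → ℝ} {v : V4} {c : ℝ} (h : ∀ i, d i * |(v i : ℝ)| ≤ c) :
    nv d v ≤ c :=
  Finset.sup'_le _ _ (fun i _ => h i)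

theorem rin_ex (d : Fin 4 → ℝ) (v : V4) : ∃ i, nv d v = d i * |(v i : ℝ)| := by
  obtain ⟨i, _, hi⟩ :=
    Finset.exists_mem_eq_sup' Finset.univ_nonempty (fun i : Fin 4 => d i * |(v i : ℝ)|)
  exact ⟨i, hi⟩

theorem rin_lex (d : Fin 4 → ℝ) (x : A4) (i j : Fin 4) : d i * d j * |(x i j : ℝ)| ≤ nx d x :=
  Finset.le_sup' (fun p : Fin 4 × Fin 4 => d p.1 * d p.2 * |(x p.1 p.2 : ℝ)|)
    (Finset.mem_univ (i, j))

theorem rin_nx_le {d : Fin 4 → ℝ} {x : A4} {c : ℝ} (h : ∀ i j, d i * d j * |(x i j : ℝ)| ≤ c) :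
    nx d x ≤ c :=
  Finset.sup'_le _ _ (fun p _ => h p.1 p.2)

theorem rin_tri (d : Fin 4 → ℝ) (hd : ∀ i, 0 < d i) (v w : V4) :
    nv d (v + w) ≤ nv d v + nv d w := by
  refine rin_nv_le (fun i => ?_)
  have h1 := rin_le d v i
  have h2 := rin_le d w i
  have h3 : |((v + w) i : ℝ)| ≤ |(v i : ℝ)| + |(w i : ℝ)| := by
    rw [Pi.add_apply]
    push_cast
    exact abs_add_le _ _
  calc d i * |((v + w) i : ℝ)| ≤ d i * (|(v i : ℝ)| + |(w i : ℝ)|) :=
        mul_le_mul_of_nonneg_left h3 (hd i).le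
    _ ≤ nv d v + nv d w := by
        rw [mul_add]
        exact add_le_add h1 h2

theorem rin_smul (d : Fin 4 → ℝ) (m : ℤ) (v : V4) :
    nv d (m • v) = |(m : ℝ)| * nv d v := by
  have h3 : ∀ i, d i * |((m • v) i : ℝ)| = |(m : ℝ)| * (d i * |(v i : ℝ)|) := by
    intro i
    rw [Pi.smul_apply, smul_eq_mul]
    push_cast
    rw [abs_mul]
    ring
  apply le_antisymm
  · refine rin_nv_le (fun i => ?_)
    rw [h3]
    exact mul_le_mul_of_nonneg_left (rin_le d v i) (abs_nonneg _)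
  · obtain ⟨i, hi⟩ := rin_ex d v
    rw [hi, ← h3]
    exact rin_le d (m • v) i

theorem rin_nonneg (d : Fin 4 → ℝ) (hd : ∀ i, 0 < d i) (v : V4) : 0 ≤ nv d v :=
  le_trans (mul_nonneg (hd 0).le (abs_nonneg _)) (rin_le d v 0)

theorem rin_coord (d : Fin 4 → ℝ) (hd : ∀ i, 0 < d i) (v : V4) (i : Fin 4) (hv : v i ≠ 0) :
    d i ≤ nv d v := by
  have h1 := rin_le d v i
  have h2 : (1 : ℝ) ≤ |(v i : ℝ)| := by
    have := Int.one_le_abs hv
    exact_mod_cast this
  have h3 := mul_le_mul_of_nonneg_left h2 (hd i).le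
  linarith

theorem rin_pos (d : Fin 4 → ℝ) (hd : ∀ i, 0 < d i) (v : V4) (hv : v ≠ 0) : 0 < nv d v := by
  obtain ⟨i, hi⟩ := Function.ne_iff.mp hv
  exact lt_of_lt_of_le (hd i) (rin_coord d hd v i hi)

theorem rin_neg (d : Fin 4 → ℝ) (v : V4) : nv d (-v) = nv d v := by
  have h := rin_smul d (-1) v
  simpa using h

/-- lower triangle inequality -/
theorem rin_low (d : Fin 4 → ℝ) (hd : ∀ i, 0 < d i) (v w : V4) :
    nv d v - nv d w ≤ nv d (v + w) := by
  have h := rin_tri d hd (v + w) (-w)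
  rw [rin_neg] at h
  have h2 : v + w + -w = v := by
    rw [add_assoc, add_neg_cancel, add_zero]
  rw [h2] at h
  linarith

theorem rin_inP (s t : V4) (a b : ℤ) : InP (wdg s t) (a • s + b • t) := by
  intro i j k
  simp only [w3, wdg, Pi.add_apply, Pi.smul_apply, smul_eq_mul]
  ring

theorem rin_inP' (s t : V4) (m : ℤ) : InP (wdg s t) (t + m • s) := by
  have h := rin_inP s t m 1
  rwa [one_smul, add_comm] at h

theorem rin_ne (x : A4) (hx : PrimA x) : x ≠ 0 := by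
  intro h
  have h2 := hx 0 (fun i j => by rw [h]; exact dvd_refl _)
  exact not_isUnit_zero h2

theorem rin_tne (d : Fin 4 → ℝ) (x : A4) (s t : V4) (hx : PrimA x) (hr : Red d x s t) (m : ℤ) :
    t + m • s ≠ 0 := by
  intro h
  apply rin_ne x hx
  have ht : ∀ i, t i = - (m * s i) := by
    intro i
    have h2 := congrFun h i
    simp only [Pi.add_apply, Pi.smul_apply, smul_eq_mul, Pi.zero_apply] at h2
    linarith
  rw [hr.wd]
  funext i j
  simp only [wdg, Pi.zero_apply, ht]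
  ring

theorem rin_round (a b : ℤ) (hb : b ≠ 0) : ∃ m : ℤ, |((a + m * b : ℤ) : ℝ)| ≤ |(b : ℝ)| / 2 := by
  refine ⟨- round ((a : ℝ) / (b : ℝ)), ?_⟩
  have hb' : (b : ℝ) ≠ 0 := by exact_mod_cast hb
  have h1 := abs_sub_round ((a : ℝ) / (b : ℝ))
  have h2 : ((a + (- round ((a : ℝ) / (b : ℝ))) * b : ℤ) : ℝ) =
      (b : ℝ) * ((a : ℝ) / (b : ℝ) - (round ((a : ℝ) / (b : ℝ)) : ℝ)) := by
    push_cast
    rw [mul_sub, mul_div_cancel₀ _ hb']
    ring
  rw [h2, abs_mul]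
  have h3 := mul_le_mul_of_nonneg_left h1 (abs_nonneg (b : ℝ))
  linarith

theorem st_RIN_aux (d : Fin 4 → ℝ) (x : A4) (s t : V4) (hd : ∀ i, 0 < d i) (hx : PrimA x)
    (hr : Red d x s t) :
  0 < nv d s ∧ nv d s ≤ nv d t ∧ nv d s * nv d t ≤ 2 * nx d x ∧ nx d x ≤ 2 * (nv d s * nv d t) ∧
  (∀ c₁ c₂ : ℤ, |(c₂ : ℝ)| * nv d t ≤ 2 * nv d (c₁ • s + c₂ • t) ∧
    |(c₁ : ℝ)| * nv d s ≤ 3 * nv d (c₁ • s + c₂ • t)) ∧
  ((∀ i j, i ≠ j → x i j ≠ 0) → (∀ j, d j ≤ nv d t) ∧ (∀ j, nv d s * d j ≤ 2 * nx d x) ∧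
    (∀ i j, i ≠ j → s i ≠ 0 ∨ s j ≠ 0) ∧
    ∀ (e : ℝ) (i j : Fin 4), i ≠ j → e ≤ d i → e ≤ d j → e ≤ nv d s) := by
  have hs0 : 0 < nv d s := rin_pos d hd s hr.s0
  have hmin : ∀ m : ℤ, nv d s ≤ nv d (t + m • s) := by
    intro m
    refine hr.mn _ ?_ (rin_tne d x s t hx hr m)
    rw [hr.wd]
    exact rin_inP' s t m
  have hst : nv d s ≤ nv d t := by
    have h := hmin 0
    rwa [zero_smul, add_zero] at h
  have ht0 : 0 < nv d t := lt_of_lt_of_le hs0 hst
  -- the product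
  have hprod : nv d s * nv d t ≤ 2 * nx d x := by
    obtain ⟨i, hi⟩ := rin_ex d s
    have hsi : s i ≠ 0 := by
      intro h
      rw [h] at hi
      simp only [Int.cast_zero, abs_zero, mul_zero] at hi
      linarith
    obtain ⟨m, hm⟩ := rin_round (t i) (s i) hsi
    obtain ⟨j, hj⟩ := rin_ex d (t + m • s)
    have hmt := hr.tr m
    have hms := hmin m
    have hxij : (x i j : ℝ) = (s i : ℝ) * ((t + m • s) j : ℝ) -
        (s j : ℝ) * ((t i + m * s i : ℤ) : ℝ) := by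
      rw [hr.wd]
      simp only [wdg, Pi.add_apply, Pi.smul_apply, smul_eq_mul]
      push_cast
      ring
    have h1 := rin_lex d x i j
    have h2 : |(s i : ℝ)| * |((t + m • s) j : ℝ)| - |(s j : ℝ)| * |((t i + m * s i : ℤ) : ℝ)| ≤
        |(x i j : ℝ)| := by
      rw [hxij, ← abs_mul, ← abs_mul]
      exact abs_sub_abs_le_abs_sub _ _
    have hdd : 0 < d i * d j := mul_pos (hd i) (hd j)
    have h3 := mul_le_mul_of_nonneg_left h2 hdd.le
    have h4 : d i * d j * (|(s i : ℝ)| * |((t + m • s) j : ℝ)|) = nv d s * nv d (t + m • s) := by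
      rw [hi, hj]
      ring
    have h5 : d i * d j * (|(s j : ℝ)| * |((t i + m * s i : ℤ) : ℝ)|) ≤
        nv d s * (nv d s / 2) := by
      have h6 : d j * |(s j : ℝ)| ≤ nv d s := rin_le d s j
      have h7 : d i * |((t i + m * s i : ℤ) : ℝ)| ≤ nv d s / 2 := by
        have h8 := mul_le_mul_of_nonneg_left hm (hd i).le
        rw [hi]
        linarith
      have h9 : d i * d j * (|(s j : ℝ)| * |((t i + m * s i : ℤ) : ℝ)|) =
          (d j * |(s j : ℝ)|) * (d i * |((t i + m * s i : ℤ) : ℝ)|) := by ring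
      rw [h9]
      exact mul_le_mul h6 h7 (mul_nonneg (hd i).le (abs_nonneg _)) hs0.le
    rw [mul_sub] at h3
    have h10 : nv d s * nv d s ≤ nv d s * nv d (t + m • s) :=
      mul_le_mul_of_nonneg_left hms hs0.le
    have h11 : nv d s * nv d t ≤ nv d s * nv d (t + m • s) :=
      mul_le_mul_of_nonneg_left hmt hs0.le
    linarith
  have hupp : nx d x ≤ 2 * (nv d s * nv d t) := by
    refine rin_nx_le (fun i j => ?_)
    have hxij : (x i j : ℝ) = (s i : ℝ) * (t j : ℝ) - (s j : ℝ) * (t i : ℝ) := by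
      rw [hr.wd]
      simp only [wdg]
      push_cast
      ring
    have h2 : |(x i j : ℝ)| ≤ |(s i : ℝ)| * |(t j : ℝ)| + |(s j : ℝ)| * |(t i : ℝ)| := by
      rw [hxij, ← abs_mul, ← abs_mul]
      exact abs_sub _ _
    have hdd : 0 < d i * d j := mul_pos (hd i) (hd j)
    have h3 := mul_le_mul_of_nonneg_left h2 hdd.le
    have h4 : (d i * |(s i : ℝ)|) * (d j * |(t j : ℝ)|) ≤ nv d s * nv d t :=
      mul_le_mul (rin_le d s i) (rin_le d t j) (mul_nonneg (hd j).le (abs_nonneg _)) hs0.le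
    have h5 : (d j * |(s j : ℝ)|) * (d i * |(t i : ℝ)|) ≤ nv d s * nv d t :=
      mul_le_mul (rin_le d s j) (rin_le d t i) (mul_nonneg (hd i).le (abs_nonneg _)) hs0.le
    have h6 : d i * d j * (|(s i : ℝ)| * |(t j : ℝ)| + |(s j : ℝ)| * |(t i : ℝ)|) =
      (d i * |(s i : ℝ)|) * (d j * |(t j : ℝ)|) + (d j * |(s j : ℝ)|) * (d i * |(t i : ℝ)|) := by
      ring
    linarith
  have hc : ∀ c₁ c₂ : ℤ, |(c₂ : ℝ)| * nv d t ≤ 2 * nv d (c₁ • s + c₂ • t) := by
    intro c₁ c₂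
    by_cases hc2 : c₂ = 0
    · rw [hc2, Int.cast_zero, abs_zero, zero_mul]
      have := rin_nonneg d hd (c₁ • s + (0 : ℤ) • t)
      linarith
    · obtain ⟨m, hm⟩ := rin_round c₁ c₂ hc2
      have h1 : c₁ • s + c₂ • t = c₂ • (t + (-m) • s) + (c₁ + m * c₂) • s := by
        funext i
        simp only [Pi.add_apply, Pi.smul_apply, smul_eq_mul]
        ring
      have h2 := rin_low d hd (c₂ • (t + (-m) • s)) ((c₁ + m * c₂) • s)
      rw [← h1, rin_smul, rin_smul] at h2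
      have h3 : |((c₁ + m * c₂ : ℤ) : ℝ)| * nv d s ≤ |(c₂ : ℝ)| / 2 * nv d s :=
        mul_le_mul_of_nonneg_right hm hs0.le
      have h4 : |(c₂ : ℝ)| * nv d s ≤ |(c₂ : ℝ)| * nv d (t + (-m) • s) :=
        mul_le_mul_of_nonneg_left (hmin (-m)) (abs_nonneg _)
      have h5 : |(c₂ : ℝ)| * nv d t ≤ |(c₂ : ℝ)| * nv d (t + (-m) • s) :=
        mul_le_mul_of_nonneg_left (hr.tr (-m)) (abs_nonneg _)
      linarith
  refine ⟨hs0, hst, hprod, hupp, ?_, ?_⟩
  · intro c₁ c₂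
    refine ⟨hc c₁ c₂, ?_⟩
    have h1 := hc c₁ c₂
    have h2 := rin_tri d hd (c₁ • s + c₂ • t) (-(c₂ • t))
    rw [rin_neg, rin_smul d c₂ t] at h2
    have h3 : c₁ • s + c₂ • t + -(c₂ • t) = c₁ • s := by
      rw [add_assoc, add_neg_cancel, add_zero]
    rw [h3, rin_smul] at h2
    linarith
  · intro hnz
    have hxx : ∀ i j, x i j = s i * t j - s j * t i := by
      intro i j
      rw [hr.wd]
      rfl
    have hdt : ∀ j, d j ≤ nv d t := by
      intro j
      obtain ⟨i, hij⟩ := exists_ne j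
      by_cases hsj : s j = 0
      · by_cases htj : t j = 0
        · exfalso
          apply hnz i j hij
          rw [hxx, hsj, htj]
          ring
        · exact rin_coord d hd t j htj
      · exact le_trans (rin_coord d hd s j hsj) hst
    have hsij : ∀ i j, i ≠ j → s i ≠ 0 ∨ s j ≠ 0 := by
      intro i j hij
      by_contra hcon
      simp only [not_or, ne_eq, not_not] at hcon
      apply hnz i j hij
      rw [hxx, hcon.1, hcon.2]
      ring
    refine ⟨hdt, ?_, hsij, ?_⟩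
    · intro j
      exact le_trans (mul_le_mul_of_nonneg_left (hdt j) hs0.le) hprod
    · intro e i j hij h1 h2
      rcases hsij i j hij with h | h
      · exact le_trans h1 (rin_coord d hd s i h)
      · exact le_trans h2 (rin_coord d hd s j h)

/-- Row RIN. -/
theorem st_RIN : ST_RIN := fun d x s t hd hx hr => st_RIN_aux d x s t hd hx hr

end Pool.Helper13.R6
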