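import Pool.Agent.Helper67.R6.Fam

/-! # Row SIEVE of the family sheet of rank six (MP_798d7d_nt) -/

set_option autoImplicit false

namespace Pool.Helper67.R6

open Finset

lemma siv_sq (N q : ℕ) (hq : 0 < q) :
    (((N / q + 1) ^ 2 : ℕ) : ℝ) ≤ 4 * (N : ℝ) ^ 2 * ((q : ℝ) ^ 2)⁻¹ + 1 := by
  have hq0 : (0 : ℝ) < q := by exact_mod_cast hq
  rcases Nat.lt_or_ge N q with h | h
  · rw [Nat.div_eq_of_lt h]
    have : 0 ≤ 4 * (N : ℝ) ^ 2 * ((q : ℝ) ^ 2)⁻¹ := by positivity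
    push_cast
    linarith
  · have h1 : ((N / q : ℕ) : ℝ) ≤ (N : ℝ) / q := Nat.cast_div_le
    have h2 : (1 : ℝ) ≤ (N : ℝ) / q := by
      rw [le_div_iff₀ hq0]
      have : (q : ℝ) ≤ N := by exact_mod_cast h
      linarith
    have h3 : ((N / q + 1 : ℕ) : ℝ) ≤ 2 * ((N : ℝ) / q) := by
      push_cast
      linarith
    have h4 : (((N / q + 1) ^ 2 : ℕ) : ℝ) ≤ (2 * ((N : ℝ) / q)) ^ 2 := by
      rw [Nat.cast_pow]
      exact pow_le_pow_left₀ (Nat.cast_nonneg _) h3 2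
    have h5 : (2 * ((N : ℝ) / q)) ^ 2 = 4 * (N : ℝ) ^ 2 * ((q : ℝ) ^ 2)⁻¹ := by
      rw [mul_pow, div_pow, div_eq_mul_inv]
      ring
    linarith

lemma siv_sum (K M : ℕ) (hK : 1 ≤ K) : ∑ q ∈ Ioc K M, ((q : ℝ) ^ 2)⁻¹ ≤ (K : ℝ)⁻¹ := by
  rcases Nat.lt_or_ge M K with h | h
  · rw [Ioc_eq_empty_of_le h.le, sum_empty]
    positivity
  · have := sum_Ioc_inv_sq_le_sub (α := ℝ) (k := K) (n := M) (by omega) h
    have h2 : (0 : ℝ) ≤ (M : ℝ)⁻¹ := by positivity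
    linarith

lemma siv_QQ : ((QQ : ℕ) : ℝ)⁻¹ = 1 / 10000 := by
  unfold QQ
  norm_num

lemma siv_QQ1 : 1 ≤ QQ := by
  unfold QQ
  norm_num

/-- the primes up to `C m²` have density zero -/
lemma siv_pi (C : ℕ) : ∃ m0 : ℕ, ∀ m : ℕ, m0 ≤ m →
    (Nat.primeCounting (C * m ^ 2) : ℝ) ≤ (m : ℝ) ^ 2 / 1440 := by
  rcases Nat.eq_zero_or_pos C with rfl | hC
  · refine ⟨0, fun m _ => ?_⟩
    rw [Nat.zero_mul, Nat.primeCounting_zero]
    push_cast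
    positivity
  · have hC' : (1 : ℝ) ≤ C := by exact_mod_cast hC
    have ht : Filter.Tendsto (fun m : ℕ => (C : ℝ) * (m : ℝ) ^ 2) Filter.atTop Filter.atTop := by
      refine Filter.tendsto_atTop_mono (fun m => ?_) (tendsto_natCast_atTop_atTop (R := ℝ))
      rcases Nat.eq_zero_or_pos m with rfl | hm
      · simp
      · have hm' : (1 : ℝ) ≤ m := by exact_mod_cast hm
        nlinarith
    have h1 := ht.eventually (Chebyshev.eventually_primeCounting_le (ε := 1) one_pos)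
    have h2 := (Real.tendsto_log_atTop.comp ht).eventually
      (Filter.eventually_ge_atTop (1440 * (C : ℝ) * (Real.log 4 + 1)))
    have h3 := ht.eventually (Filter.eventually_gt_atTop (1 : ℝ))
    obtain ⟨m0, hm0⟩ := Filter.eventually_atTop.1 (h1.and (h2.and h3))
    refine ⟨m0, fun m hm => ?_⟩
    obtain ⟨e1, e2, e3⟩ := hm0 m hm
    have e4 : ⌊(C : ℝ) * (m : ℝ) ^ 2⌋₊ = C * m ^ 2 := by
      have : (C : ℝ) * (m : ℝ) ^ 2 = ((C * m ^ 2 : ℕ) : ℝ) := by push_cast; ring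
      rw [this, Nat.floor_natCast]
    rw [e4] at e1
    have hl : 0 < Real.log ((C : ℝ) * (m : ℝ) ^ 2) := Real.log_pos e3
    refine e1.trans ?_
    rw [div_le_iff₀ hl]
    have e5 : 1440 * (C : ℝ) * (Real.log 4 + 1) ≤ Real.log ((C : ℝ) * (m : ℝ) ^ 2) := e2
    have e6 := mul_le_mul_of_nonneg_left e5 (by positivity : (0 : ℝ) ≤ (m : ℝ) ^ 2 / 1440)
    refine le_trans (le_of_eq ?_) e6
    ring

lemma siv_card (a b : ℕ) :
    ((Ioc a b).filter Nat.Prime).card ≤ Nat.primeCounting b := by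
  rw [Nat.primeCounting, Nat.primeCounting', Nat.count_eq_card_filter_range]
  refine card_le_card fun q hq => ?_
  rw [mem_filter, mem_Ioc] at hq
  exact mem_filter.2 ⟨mem_range.2 (by omega), hq.2⟩

open Classical in
theorem st_SIEVE (hD : ST_SVD) (hE : ST_SVE) : ST_SIEVE := by
  intro C
  obtain ⟨m0, hm0⟩ := siv_pi C
  refine ⟨m0 + 1, ?_⟩
  intro m hm
  have hm1 : 1 ≤ m := by omega
  have hpi := hm0 m (by omega)
  clear hm0 hm
  obtain ⟨Q, hQ⟩ : ∃ Q : Finset ℕ, Q = (Ioc QQ (C * m ^ 2)).filter Nat.Prime := ⟨_, rfl⟩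
  have h1 : ((Box m).filter (fun T => ¬ Gd C m T)) ⊆
      Q.biUnion (fun q => ((Box m).filter (fun T => (q : ℤ) ∣ aA (ww m T) ∧
        (q : ℤ) ∣ aB (ww m T))) ∪ ((Box m).filter (fun T => ∃ i j : Fin 6,
          (i : ℕ) % 3 ≠ (j : ℕ) % 3 ∧ (q : ℤ) ∣ YY (ww m T) i ∧ (q : ℤ) ∣ YY (ww m T) j))) := by
    intro T hT
    rw [mem_filter] at hT
    obtain ⟨hT1, hT2⟩ := hT
    have hT3 : ∃ q : ℕ, q.Prime ∧ QQ < q ∧ q ≤ C * m ^ 2 ∧
        (((q : ℤ) ∣ aA (ww m T) ∧ (q : ℤ) ∣ aB (ww m T)) ∨ ∃ i j : Fin 6,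
          (i : ℕ) % 3 ≠ (j : ℕ) % 3 ∧ (q : ℤ) ∣ YY (ww m T) i ∧ (q : ℤ) ∣ YY (ww m T) j) := by
      by_contra hcon
      refine hT2 fun q hq1 hq2 hq3 => ⟨fun hAB => hcon ⟨q, hq1, hq2, hq3, Or.inl hAB⟩, ?_⟩
      intro i j hij hY
      exact hcon ⟨q, hq1, hq2, hq3, Or.inr ⟨i, j, hij, hY⟩⟩
    obtain ⟨q, hq1, hq2, hq3, hq4⟩ := hT3
    have hqQ : q ∈ Q := by
      rw [hQ]
      exact mem_filter.2 ⟨mem_Ioc.2 ⟨hq2, hq3⟩, hq1⟩
    refine mem_biUnion.2 ⟨q, hqQ, mem_union.2 ?_⟩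
    rcases hq4 with h | h
    · exact Or.inl (mem_filter.2 ⟨hT1, h⟩)
    · exact Or.inr (mem_filter.2 ⟨hT1, h⟩)
  have h2 : ((Box m).filter (fun T => ¬ Gd C m T)).card ≤
      ∑ q ∈ Q, 360 * m ^ 6 * (m / q + 1) ^ 2 := by
    refine (card_le_card h1).trans (card_biUnion_le.trans (sum_le_sum fun q hq => ?_))
    rw [hQ, mem_filter, mem_Ioc] at hq
    refine (card_union_le _ _).trans ?_
    refine (add_le_add (hD m q hm1 hq.2 hq.1.1) (hE m q hm1 hq.2 hq.1.1)).trans (le_of_eq ?_)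
    ring
  have hnn : ∀ q ∈ Ioc QQ (C * m ^ 2), q ∉ (Ioc QQ (C * m ^ 2)).filter Nat.Prime →
      (0 : ℝ) ≤ ((q : ℝ) ^ 2)⁻¹ := fun q _ _ => inv_nonneg.2 (sq_nonneg _)
  have h4 : ((∑ q ∈ Q, 360 * m ^ 6 * (m / q + 1) ^ 2 : ℕ) : ℝ) ≤
      360 * (m : ℝ) ^ 6 * (4 * (m : ℝ) ^ 2 * (1 / 10000) + (m : ℝ) ^ 2 / 1440) := by
    rw [Nat.cast_sum]
    have e1 : ∀ q ∈ Q, ((360 * m ^ 6 * (m / q + 1) ^ 2 : ℕ) : ℝ) ≤
        360 * (m : ℝ) ^ 6 * (4 * (m : ℝ) ^ 2 * ((q : ℝ) ^ 2)⁻¹ + 1) := by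
      intro q hq
      rw [hQ, mem_filter] at hq
      have := siv_sq m q hq.2.pos
      have hc : ((360 * m ^ 6 * (m / q + 1) ^ 2 : ℕ) : ℝ)
          = 360 * (m : ℝ) ^ 6 * (((m / q + 1) ^ 2 : ℕ) : ℝ) := by
        push_cast
        ring
      rw [hc]
      exact mul_le_mul_of_nonneg_left this (by positivity)
    refine (sum_le_sum e1).trans ?_
    rw [← mul_sum, sum_add_distrib, ← mul_sum, sum_const, nsmul_eq_mul, mul_one]
    refine mul_le_mul_of_nonneg_left ?_ (by positivity)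
    refine add_le_add (mul_le_mul_of_nonneg_left ?_ (by positivity)) ?_
    · rw [← siv_QQ]
      refine le_trans ?_ (siv_sum QQ (C * m ^ 2) siv_QQ1)
      rw [hQ]
      exact sum_le_sum_of_subset_of_nonneg (filter_subset _ _) hnn
    · refine le_trans ?_ hpi
      rw [hQ]
      exact Nat.cast_le.2 (siv_card _ _)
  have h6 : ((2 * ((Box m).filter (fun T => ¬ Gd C m T)).card : ℕ) : ℝ) ≤
      ((m ^ 8 : ℕ) : ℝ) := by
    have h7 : ((((Box m).filter (fun T => ¬ Gd C m T)).card : ℕ) : ℝ) ≤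
        ((∑ q ∈ Q, 360 * m ^ 6 * (m / q + 1) ^ 2 : ℕ) : ℝ) := by
      exact_mod_cast h2
    rw [Nat.cast_mul, Nat.cast_pow]
    refine le_trans (mul_le_mul_of_nonneg_left (h7.trans h4) (by norm_num)) ?_
    have hp : (0 : ℝ) ≤ (m : ℝ) ^ 8 := by positivity
    push_cast
    have e : (2 : ℝ) * (360 * (m : ℝ) ^ 6 * (4 * (m : ℝ) ^ 2 * (1 / 10000) + (m : ℝ) ^ 2 / 1440))
        = 788 / 1000 * (m : ℝ) ^ 8 := by ring
    rw [e]
    linarith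
  exact_mod_cast h6

end Pool.Helper67.R6
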